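import Pool.Agent.VTP.StmtsW

set_option autoImplicit false

/-!
# VTP, row WMU: products
-/

namespace Pool.Agent.VTP.H89

open Finset Pool.Agent.ZOL Pool.Agent.VTP

theorem find_relab {τ : ℕ → ℕ} {w : Word} {d : ℕ} (hτ : ∀ x, τ x = τ d ↔ x = d) :
    (relab τ w).find? (fun l => decide (l.1 = τ d)) =
      (w.find? (fun l => decide (l.1 = d))).map (fun l => (τ l.1, l.2)) := by
  unfold relab
  rw [List.find?_map]
  have h : ((fun l : Letter => decide (l.1 = τ d)) ∘ fun l : Letter => (τ l.1, l.2)) =
      fun l : Letter => decide (l.1 = d) := by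
    funext l
    simp only [Function.comp_apply]
    exact decide_eq_decide.2 (hτ l.1)
  rw [h]

theorem find_some {w : Word} {d : ℕ} (hd : d ∈ labels w) :
    ∃ l, w.find? (fun l => decide (l.1 = d)) = some l ∧ fstL w d = l := by
  obtain ⟨l, hl, hld⟩ := mem_labels.mp hd
  have hs : (w.find? (fun l => decide (l.1 = d))).isSome := by
    rw [List.find?_isSome]
    exact ⟨l, hl, by simp [hld]⟩
  obtain ⟨x, hx⟩ := Option.isSome_iff_exists.mp hs
  exact ⟨x, hx, by unfold fstL; rw [hx]; rfl⟩

theorem fst_left (w E : Word) {d : ℕ} (hd : d ∈ labels w) :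
    fstL (mul w E) (2 * d) = (2 * (fstL w d).1, (fstL w d).2) := by
  obtain ⟨l, hl, hl'⟩ := find_some hd
  have h := find_relab (τ := fun n => 2 * n) (w := w) (d := d) (fun x => by constructor <;> intro h <;> omega)
  rw [hl] at h
  rw [hl']
  unfold fstL mul
  rw [List.find?_append]
  rw [h]
  rfl

theorem fst_right (w E : Word) {d : ℕ} (hd : d ∈ labels E) :
    fstL (mul w E) (2 * d + 1) = (2 * (fstL E d).1 + 1, (fstL E d).2) := by
  obtain ⟨l, hl, hl'⟩ := find_some hd
  have h := find_relab (τ := fun n => 2 * n + 1) (w := E) (d := d)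
    (fun x => by constructor <;> intro h <;> omega)
  rw [hl] at h
  rw [hl']
  have hn : (relab (fun n => 2 * n) w).find? (fun l => decide (l.1 = 2 * d + 1)) = none := by
    rw [List.find?_eq_none]
    intro x hx
    unfold relab at hx
    obtain ⟨y, _, rfl⟩ := List.mem_map.1 hx
    simp only [decide_eq_true_eq]
    omega
  unfold fstL mul
  rw [List.find?_append]
  rw [hn, h]
  rfl

theorem sg_of {w w' : Word} {d d' : ℕ} (h : (fstL w d).2 = (fstL w' d').2) : sg w d = sg w' d' := by
  unfold sg eps
  simp only [h]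

theorem sn_of {w w' : Word} {d d' : ℕ} (h : (fstL w d).2 = (fstL w' d').2) : sn w d = sn w' d' := by
  unfold sn sgn
  simp only [h]

theorem sub_mul (S : Finset ℕ) (w E : Word) :
    sub S (mul w E) = sub S (relab (fun n => 2 * n) w) ++ sub S (relab (fun n => 2 * n + 1) E) := by
  unfold mul
  rw [sub_append]

theorem sub_pair_relab {τ : ℕ → ℕ} (hτ : Function.Injective τ) (w : Word) (c d : ℕ) :
    (sub {τ c, τ d} (relab τ w)).map Prod.fst = ((sub {c, d} w).map Prod.fst).map τ := by
  unfold sub relab
  rw [List.filter_map, List.map_map, List.map_map]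
  have h : ((fun l : Letter => decide (l.1 ∈ ({τ c, τ d} : Finset ℕ))) ∘
      fun l : Letter => (τ l.1, l.2)) = fun l : Letter => decide (l.1 ∈ ({c, d} : Finset ℕ)) := by
    funext l
    simp only [Function.comp_apply, Finset.mem_insert, Finset.mem_singleton, hτ.eq_iff]
  rw [h]
  rfl

theorem il_left (w E : Word) (c d : ℕ) : il (mul w E) (2 * c) (2 * d) ↔ il w c d := by
  have hinj : Function.Injective (fun n : ℕ => 2 * n) := fun a b h => by
    simp only [] at h
    omega
  have h2 : sub {2 * c, 2 * d} (relab (fun n => 2 * n + 1) E) = [] := by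
    apply sub_eq_nil
    rw [labels_relab, Finset.disjoint_left]
    intro x hx hx'
    obtain ⟨y, _, hy⟩ := Finset.mem_image.1 hx'
    simp only [Finset.mem_insert, Finset.mem_singleton] at hx
    omega
  have h1 := sub_pair_relab hinj w c d
  unfold il
  rw [sub_mul, h2, List.append_nil, h1]
  have e1 : [2 * c, 2 * d, 2 * c, 2 * d] = [c, d, c, d].map (fun n => 2 * n) := rfl
  have e2 : [2 * d, 2 * c, 2 * d, 2 * c] = [d, c, d, c].map (fun n => 2 * n) := rfl
  rw [e1, e2, (List.map_injective_iff.2 hinj).eq_iff, (List.map_injective_iff.2 hinj).eq_iff]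

theorem il_right (w E : Word) (c d : ℕ) : il (mul w E) (2 * c + 1) (2 * d + 1) ↔ il E c d := by
  have hinj : Function.Injective (fun n : ℕ => 2 * n + 1) := fun a b h => by
    simp only [] at h
    omega
  have h2 : sub {2 * c + 1, 2 * d + 1} (relab (fun n => 2 * n) w) = [] := by
    apply sub_eq_nil
    rw [labels_relab, Finset.disjoint_left]
    intro x hx hx'
    obtain ⟨y, _, hy⟩ := Finset.mem_image.1 hx'
    simp only [Finset.mem_insert, Finset.mem_singleton] at hx
    omega
  have h1 := sub_pair_relab hinj E c d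
  unfold il
  rw [sub_mul, h2, List.nil_append, h1]
  have e1 : [2 * c + 1, 2 * d + 1, 2 * c + 1, 2 * d + 1] = [c, d, c, d].map (fun n => 2 * n + 1) := rfl
  have e2 : [2 * d + 1, 2 * c + 1, 2 * d + 1, 2 * c + 1] = [d, c, d, c].map (fun n => 2 * n + 1) := rfl
  rw [e1, e2, (List.map_injective_iff.2 hinj).eq_iff, (List.map_injective_iff.2 hinj).eq_iff]

/-- a list of evens followed by a list of odds is not alternating -/
theorem not_alt {a b : List ℕ} (ha : ∀ x ∈ a, x % 2 = 0) (hb : ∀ x ∈ b, x % 2 = 1) {c d : ℕ}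
    (hc : c % 2 = 0) (hd : d % 2 = 1) : a ++ b ≠ [c, d, c, d] ∧ a ++ b ≠ [d, c, d, c] := by
  constructor
  · intro h
    match a, ha, h with
    | [], _, h =>
      rw [List.nil_append] at h
      have := hb c (by rw [h]; simp)
      omega
    | [x], _, h =>
      simp only [List.cons_append, List.nil_append, List.cons.injEq] at h
      have := hb c (by rw [h.2]; simp)
      omega
    | x :: y :: l, ha, h =>
      simp only [List.cons_append, List.cons.injEq] at h
      have := ha y (by simp)
      omega
  · intro h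
    match a, ha, h with
    | [], _, h =>
      rw [List.nil_append] at h
      have := hb c (by rw [h]; simp)
      omega
    | x :: l, ha, h =>
      simp only [List.cons_append, List.cons.injEq] at h
      have := ha x (by simp)
      omega

theorem il_mixed (w E : Word) (c d : ℕ) :
    ¬ il (mul w E) (2 * c) (2 * d + 1) ∧ ¬ il (mul w E) (2 * d + 1) (2 * c) := by
  have key : ∀ S : Finset ℕ,
      (sub S (mul w E)).map Prod.fst ≠ [2 * c, 2 * d + 1, 2 * c, 2 * d + 1] ∧
      (sub S (mul w E)).map Prod.fst ≠ [2 * d + 1, 2 * c, 2 * d + 1, 2 * c] := by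
    intro S
    rw [sub_mul, List.map_append]
    refine not_alt ?_ ?_ (by omega) (by omega)
    · intro x hx
      obtain ⟨l, hl, rfl⟩ := List.mem_map.1 hx
      have h1 := (mem_sub.1 hl).1
      unfold relab at h1
      obtain ⟨y, _, rfl⟩ := List.mem_map.1 h1
      simp only []
      omega
    · intro x hx
      obtain ⟨l, hl, rfl⟩ := List.mem_map.1 hx
      have h1 := (mem_sub.1 hl).1
      unfold relab at h1
      obtain ⟨y, _, rfl⟩ := List.mem_map.1 h1
      simp only []
      omega
  constructor
  · rintro (h | h)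
    · exact (key _).1 h
    · exact (key _).2 h
  · rintro (h | h)
    · exact (key _).2 h
    · exact (key _).1 h

theorem wmu (_pcg : PcgStmt) (pim : PimStmt) (pmu : PmuStmt) (qex : QexStmt) : WmuStmt := by
  intro w E hw hE hev
  have hlab : labels (mul w E) =
      (labels w).image (fun n => 2 * n) ∪ (labels E).image (fun n => 2 * n + 1) := by
    unfold mul
    rw [labels_append, labels_relab, labels_relab]
  have p1 := pim (labels w) (sg w) (sg (mul w E)) (sn w) (sn (mul w E)) (il w) (il (mul w E))
    (fun n => 2 * n) (fun a _ b _ h => by simp only [] at h; omega)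
    (fun d hd => sg_of (by rw [fst_left w E hd]))
    (fun d hd => sn_of (by rw [fst_left w E hd]))
    (fun c _ d _ => il_left w E c d)
  have p2 := pim (labels E) (sg E) (sg (mul w E)) (sn E) (sn (mul w E)) (il E) (il (mul w E))
    (fun n => 2 * n + 1) (fun a _ b _ h => by simp only [] at h; omega)
    (fun d hd => sg_of (by rw [fst_right w E hd]))
    (fun d hd => sn_of (by rw [fst_right w E hd]))
    (fun c _ d _ => il_right w E c d)
  unfold PW
  rw [hlab, pmu (PowerSeries ℤ) qq qex.1, p1.1, p2.1]
  · rw [Finset.disjoint_left]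
    intro x hx hx'
    obtain ⟨y, _, hy⟩ := Finset.mem_image.1 hx
    obtain ⟨z, _, hz⟩ := Finset.mem_image.1 hx'
    omega
  · intro c hc d hd
    obtain ⟨y, _, rfl⟩ := Finset.mem_image.1 hc
    obtain ⟨z, _, rfl⟩ := Finset.mem_image.1 hd
    exact il_mixed w E y z
  · intro S hS hNI
    obtain ⟨S', hS', rfl⟩ := Finset.subset_image_iff.1 hS
    have hS'' : S' ⊆ labels E := by
      exact_mod_cast hS'
    obtain ⟨q1, q2⟩ := p2.2 S' hS''
    rw [q2]
    exact hev S' hS'' (q1.1 hNI)

end Pool.Agent.VTP.H89
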